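import Mathlib

/-!
# A `(6 ^ 2 - 2)`-orthogonal pair of Latin squares that no relabelling makes near-orthogonal

A pair of Latin squares of order `6` with exactly `34` distinct superimposed pairs for which there are no two
rows and two columns on which both squares have a `2 × 2` Latin subsquare. The example was found by computer.
-/

set_option autoImplicit false

namespace Pool.Agent.Results.MP_9a0911_co.OrderSix

/-- `L` is a Latin square of order `n` on the symbols `Fin n` -/
def IsLatin {n : ℕ} (L : Fin n → Fin n → Fin n) : Prop :=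
  (∀ i, Function.Bijective (L i)) ∧ ∀ j, Function.Bijective fun i => L i j

/-- exactly `r` distinct ordered pairs occur when `L` and `M` are superimposed -/
def ROrthogonal {n : ℕ} (r : ℕ) (L M : Fin n → Fin n → Fin n) : Prop :=
  (Finset.univ.image fun c : Fin n × Fin n => (L c.1 c.2, M c.1 c.2)).card = r

/-- `L` has a `2 × 2` Latin subsquare in the rows `i ≠ i'` and the columns `j ≠ j'` -/
def Subsquare {n : ℕ} (L : Fin n → Fin n → Fin n) (i i' j j' : Fin n) : Prop :=
  i ≠ i' ∧ j ≠ j' ∧ L i j = L i' j' ∧ L i j' = L i' j ∧ L i j ≠ L i j'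

/-- the pair `(L, M)` is near-orthogonal: it is `(n ^ 2 - 2)`-orthogonal and both squares have a `2 × 2` Latin
subsquare on the same two rows and columns, with the same two symbols -/
def NearOrthogonal {n : ℕ} (L M : Fin n → Fin n → Fin n) : Prop :=
  ROrthogonal (n ^ 2 - 2) L M ∧ ∃ i i' j j' : Fin n, Subsquare L i i' j j' ∧ Subsquare M i i' j j' ∧
    ({L i j, L i j'} : Set (Fin n)) = {M i j, M i j'}

/-- the first square -/
def L6 : Fin 6 → Fin 6 → Fin 6 :=
  ![![4, 3, 1, 2, 0, 5], ![1, 5, 2, 0, 3, 4], ![3, 2, 5, 4, 1, 0], ![2, 4, 0, 1, 5, 3], ![5, 0, 4, 3, 2, 1],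
    ![0, 1, 3, 5, 4, 2]]

/-- the second square -/
def M6 : Fin 6 → Fin 6 → Fin 6 :=
  ![![0, 1, 4, 5, 2, 3], ![4, 0, 2, 1, 3, 5], ![5, 3, 1, 2, 0, 4], ![1, 4, 0, 3, 5, 2], ![2, 5, 3, 0, 4, 1],
    ![3, 2, 5, 4, 1, 0]]

instance {n : ℕ} (L : Fin n → Fin n → Fin n) (i i' j j' : Fin n) : Decidable (Subsquare L i i' j j') := by
  unfold Subsquare; infer_instance

theorem latin_L : IsLatin L6 := by
  constructor
  · intro i
    rw [← Finite.injective_iff_bijective]
    revert i
    decide
  · intro j
    rw [← Finite.injective_iff_bijective]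
    revert j
    decide

theorem latin_M : IsLatin M6 := by
  constructor
  · intro i
    rw [← Finite.injective_iff_bijective]
    revert i
    decide
  · intro j
    rw [← Finite.injective_iff_bijective]
    revert j
    decide

theorem orth : ROrthogonal (6 ^ 2 - 2) L6 M6 := by
  unfold ROrthogonal
  decide

theorem no_common : ∀ i i' j j' : Fin 6, Subsquare L6 i i' j j' → ¬ Subsquare M6 i i' j j' := by
  decide

/-- **There is a `(6 ^ 2 - 2)`-orthogonal pair `(L, M)` of Latin squares of order `6` such that `(τ ∘ L, σ ∘ M)` is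
not near-orthogonal for any permutations `σ`, `τ` of the symbols.** More strongly, there are no two rows and two
columns on which both squares have a `2 × 2` Latin subsquare. -/
theorem result : ∃ L M : Fin 6 → Fin 6 → Fin 6, IsLatin L ∧ IsLatin M ∧ ROrthogonal (6 ^ 2 - 2) L M ∧
    (∀ i i' j j' : Fin 6, ¬ (Subsquare L i i' j j' ∧ Subsquare M i i' j j')) ∧
    ∀ σ τ : Equiv.Perm (Fin 6), ¬ NearOrthogonal (fun i j => τ (L i j)) (fun i j => σ (M i j)) := by
  refine ⟨L6, M6, latin_L, latin_M, orth, fun i i' j j' h => no_common i i' j j' h.1 h.2, ?_⟩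
  rintro σ τ ⟨-, i, i', j, j', h1, h2, -⟩
  obtain ⟨a1, a2, a3, a4, a5⟩ := h1
  obtain ⟨-, -, b3, b4, b5⟩ := h2
  exact no_common i i' j j' ⟨a1, a2, τ.injective a3, τ.injective a4, fun h => a5 (congrArg τ h)⟩
    ⟨a1, a2, σ.injective b3, σ.injective b4, fun h => b5 (congrArg σ h)⟩

end Pool.Agent.Results.MP_9a0911_co.OrderSix
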